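import Pool.Agent.Helper66.SB.GoalsB

/-!
Project SB (MP_d3128a_ag), packet SB-PZ (helper89): from one configuration to general points.
-/

set_option autoImplicit false

open Module MvPolynomial

noncomputable section

namespace Pool.Agent.Helper89.SB

open Pool.Agent.Helper66.SB Helper18.Shgh

theorem gPZ (hTR : G_TR) : G_PZ := by
  intro s d a P0 h
  let f : Equiv.Perm (Fin s) := Tuple.sort (fun i => OrderDual.toDual (a i))
  have hf : Antitone fun i => a (f i) := by
    intro i j hij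
    exact Tuple.monotone_sort (fun i => OrderDual.toDual (a i)) hij
  let m : ℕ → ℕ := fun n => if h : n < s then a (f ⟨n, h⟩) else 0
  let P' : ℕ → Fin 2 → ℂ := fun n => if h : n < s then P0 (f ⟨n, h⟩) else 0
  have hmi : ∀ i : Fin s, m (i : ℕ) = a (f i) := by
    intro i
    show (if h : (i : ℕ) < s then a (f ⟨i, h⟩) else 0) = a (f i)
    rw [dif_pos i.2]
  have hPi : ∀ i : Fin s, P' (i : ℕ) = P0 (f i) := by
    intro i
    show (if h : (i : ℕ) < s then P0 (f ⟨i, h⟩) else 0) = P0 (f i)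
    rw [dif_pos i.2]
  have hm : Antitone m := by
    intro x y hxy
    by_cases hy : y < s
    · have hx : x < s := lt_of_le_of_lt hxy hy
      have h1 := hmi ⟨x, hx⟩
      have h2 := hmi ⟨y, hy⟩
      simp only at h1 h2
      rw [h1, h2]
      exact hf (show (⟨x, hx⟩ : Fin s) ≤ ⟨y, hy⟩ from hxy)
    · have : m y = 0 := dif_neg hy
      rw [this]
      exact Nat.zero_le _
  have hSP : SP (d : ℤ) (Finset.range s) P' m = SP (d : ℤ) Finset.univ P0 a := by
    ext G
    rw [mem_SP, mem_SP]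
    constructor
    · rintro ⟨h1, h2⟩
      refine ⟨h1, fun i _ => ?_⟩
      have h3 := h2 ((f.symm i : Fin s) : ℕ) (Finset.mem_range.2 (f.symm i).2)
      rw [hmi, hPi, f.apply_symm_apply] at h3
      exact h3
    · rintro ⟨h1, h2⟩
      refine ⟨h1, fun n hn => ?_⟩
      have hn' := Finset.mem_range.1 hn
      have h3 := h2 (f ⟨n, hn'⟩) (Finset.mem_univ _)
      have h4 := hmi ⟨n, hn'⟩
      have h5 := hPi ⟨n, hn'⟩
      simp only at h4 h5
      rw [h4, h5]
      exact h3
  have hsum : ∑ i : Fin s, ((m (i : ℕ) + 1).choose 2 : ℤ) = ∑ i : Fin s, ((a i + 1).choose 2 : ℤ) := by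
    simp only [hmi]
    exact Equiv.sum_comp f (fun i => ((a i + 1).choose 2 : ℤ))
  have hch : ch2 (d : ℤ) Finset.univ a =
      2 * (((d + 2).choose 2 : ℤ) - ∑ i : Fin s, ((a i + 1).choose 2 : ℤ)) := by
    unfold ch2
    rw [mul_sub, Finset.mul_sum]
    have h7 := two_choose (d + 1)
    have h8 : ((d + 2).choose 2 : ℤ) = ((d + 1 + 1).choose 2 : ℤ) := rfl
    have h9 : ∑ i : Fin s, (2 : ℤ) * ((a i + 1).choose 2 : ℤ) =
        ∑ i : Fin s, (a i : ℤ) * ((a i : ℤ) + 1) :=
      Finset.sum_congr rfl fun i _ => two_choose (a i)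
    rw [h9, h8, h7]
    push_cast
    ring
  have hcond : (finrank ℂ (SP (d : ℤ) (Finset.range s) P' m) : ℤ) ≤
      max (((d + 2).choose 2 : ℤ) - ∑ i : Fin s, ((m (i : ℕ) + 1).choose 2 : ℤ)) 0 := by
    rw [hSP, hsum]
    rw [hch] at h
    rcases le_max_iff.1 h with h1 | h1
    · exact le_max_of_le_left (by linarith)
    · exact le_max_of_le_right (by linarith)
  obtain ⟨G, hG0, hG⟩ := general_position hm P' hcond
  refine hTR (Fin s) (Fin s) f a d ⟨G, hG0, fun P hP hPG => ?_⟩
  have h1 := hG P hP hPG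
  rw [hsum] at h1
  have h2 : ∑ i : Fin s, ((a (f i) + 1).choose 2 : ℤ) = ∑ i : Fin s, ((a i + 1).choose 2 : ℤ) :=
    Equiv.sum_comp f (fun i => ((a i + 1).choose 2 : ℤ))
  have hFS : FS s m d P = homogeneousSubmodule (Fin 3) ℂ d ⊓
      ⨅ i : Fin s, Submodule.restrictScalars ℂ
        ((LI (P i)) ^ (a (f i)) : Ideal (MvPolynomial (Fin 3) ℂ)) := by
    unfold FS
    simp only [hmi]
  rw [hFS] at h1
  rw [h2]
  exact h1

end Pool.Agent.Helper89.SB
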